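import Pool.Agent.L0h77.WK.Stm2

/-! MP_6b977f_mp, project WK (blueprint of helper77): module TGT, uniform bounds for the rescaled
functions and their Lipschitz constants outside a set of small measure -/

set_option autoImplicit false
set_option maxHeartbeats 400000
open MeasureTheory Filter Topology Complex

namespace Pool.Agent.L0h25.WK

open Pool.Agent.L0h56.BQ
open Pool.Agent.L0h77.BW hiding SS S_PB
open Pool.Agent.L0h77.WK
open Pool.Agent.N661.BR (resc IsCutoff)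

noncomputable section

theorem SS_nonneg (e : ℕ) (c : GI → ℂ) {R : ℝ} (hR : 0 ≤ R) (z : ℂ) : 0 ≤ SS e c R z := by
  unfold SS
  have h : -R ≤ R := by linarith
  have h1 : 0 ≤ ∫ t in (-R)..R, |(T e (c2 e c) z (t * I)).re| :=
    intervalIntegral.integral_nonneg h fun _ _ => abs_nonneg _
  have h2 : 0 ≤ ∫ s in (-R)..R, |(T e (c1 e c) z s).re| :=
    intervalIntegral.integral_nonneg h fun _ _ => abs_nonneg _
  have h3 : 0 ≤ ∫ s in (-R)..R, ∫ t in (-R)..R, |(T e (c2 e (c1 e c)) z (s + t * I)).re| :=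
    intervalIntegral.integral_nonneg h fun _ _ =>
      intervalIntegral.integral_nonneg h fun _ _ => abs_nonneg _
  have h0 := abs_nonneg (T e c z 0).re
  linarith

/-- the distance to the frontier is positive -/
theorem dist_pos {Ω : Set ℂ} (hΩ : IsOpen Ω) (hb : Bornology.IsBounded Ω) {z : ℂ} (hz : z ∈ Ω) :
    0 < Metric.infDist z (frontier Ω) := by
  have hne : (frontier Ω).Nonempty := by
    rw [nonempty_frontier_iff]
    refine ⟨⟨z, hz⟩, fun h => ?_⟩
    rw [h] at hb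
    exact NormedSpace.unbounded_univ ℝ ℂ hb
  have h1 : z ∉ frontier Ω := by
    rw [hΩ.frontier_eq]
    exact fun h => h.2 hz
  exact (isClosed_frontier.notMem_iff_infDist_pos hne).1 h1

theorem exists_delta {Ω U : Set ℂ} (hΩ : IsOpen Ω) (hb : Bornology.IsBounded Ω)
    (hU : MeasurableSet U) (hUΩ : U ⊆ Ω) {η : ℝ} (hη : 0 < η) : ∃ δ : ℝ, 0 < δ ∧
    volume {z ∈ U | Metric.infDist z (frontier Ω) < δ} ≤ ENNReal.ofReal (η / 2) := by
  have hmeas : ∀ n : ℕ,
      MeasurableSet {z ∈ U | Metric.infDist z (frontier Ω) < 1 / ((n : ℝ) + 1)} := fun n =>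
    hU.inter (measurableSet_lt (Metric.continuous_infDist_pt _).measurable measurable_const)
  have h1 : Tendsto (fun n : ℕ =>
      volume {z ∈ U | Metric.infDist z (frontier Ω) < 1 / ((n : ℝ) + 1)}) atTop
      (𝓝 (volume (⋂ n : ℕ, {z ∈ U | Metric.infDist z (frontier Ω) < 1 / ((n : ℝ) + 1)}))) := by
    refine tendsto_measure_iInter_atTop (fun n => (hmeas n).nullMeasurableSet) ?_ ⟨0, ?_⟩
    · intro m n hmn z hz
      refine ⟨hz.1, hz.2.trans_le ?_⟩
      have : (m : ℝ) ≤ n := by exact_mod_cast hmn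
      exact one_div_le_one_div_of_le (by positivity) (by linarith)
    · exact ((hb.subset hUΩ).subset (fun z hz => hz.1)).measure_lt_top.ne
  have h2 : (⋂ n : ℕ, {z ∈ U | Metric.infDist z (frontier Ω) < 1 / ((n : ℝ) + 1)}) = ∅ := by
    refine Set.eq_empty_of_forall_notMem fun z hz => ?_
    rw [Set.mem_iInter] at hz
    obtain ⟨n, hn⟩ := exists_nat_one_div_lt (dist_pos hΩ hb (hUΩ (hz 0).1))
    exact absurd (hz n).2 (not_lt.2 hn.le)
  rw [h2, measure_empty] at h1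
  obtain ⟨n, hn⟩ := (h1.eventually_lt_const (ENNReal.ofReal_pos.2 (half_pos hη))).exists
  exact ⟨1 / ((n : ℝ) + 1), by positivity, hn.le⟩

theorem u_eq {e : ℕ} {c : GI → ℂ} {u : ℂ → ℝ} (hu : CRep e c u) (z w : ℂ) :
    u (z + w / (√(lamE e) : ℝ)) = (T e c z w).re := by
  have h := congrArg Complex.re (hu.eq (z + w / (√(lamE e) : ℝ)))
  rw [Complex.ofReal_re] at h
  exact h

theorem lip_bd {χ : ℝ → ℝ} (hχ : IsCutoff χ) {L : ℝ} (hL0 : 0 ≤ L)
    (hL : ∀ a b : ℝ, 0 ≤ a → 0 ≤ b → |χ a - χ b| ≤ L * |a - b|) (h2 : S_PB) {e : ℕ} (he : 0 < e)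
    {c : GI → ℂ} {u : ℂ → ℝ} (hu : CRep e c u) {Ω : Set ℂ} {z : ℂ} {δ : ℝ} (hδ : 0 < δ)
    (hz : δ ≤ Metric.infDist z (frontier Ω)) {R t : ℝ} (hR : 0 ≤ R)
    (ht : SS e c R z + SS e (c1 e c) R z + SS e (c2 e c) R z ≤ t) {w w' : ℂ} (hw : ‖w‖ ≤ R)
    (hw' : ‖w'‖ ≤ R) :
    |resc χ Ω (lamE e) u z w| ≤ t * (1 + L / (Real.pi * δ)) ∧
    |resc χ Ω (lamE e) u z w - resc χ Ω (lamE e) u z w'| ≤
      t * (1 + L / (Real.pi * δ)) * ‖w - w'‖ := by
  have hs0 := SS_nonneg e c hR z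
  have hs1 := SS_nonneg e (c1 e c) hR z
  have hs2 := SS_nonneg e (c2 e c) hR z
  have hq : 0 < Real.pi * δ := mul_pos Real.pi_pos hδ
  have hD : Real.pi * δ ≤ √(lamE e) * Metric.infDist z (frontier Ω) := by
    refine mul_le_mul ?_ hz hδ.le (Real.sqrt_nonneg _)
    rw [sqrt_lamE]
    refine le_mul_of_one_le_right Real.pi_pos.le ?_
    rw [Real.one_le_sqrt]
    exact_mod_cast he
  set D : ℝ := √(lamE e) * Metric.infDist z (frontier Ω) with hDdef
  have hD0 : 0 < D := hq.trans_le hD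
  obtain ⟨p1, p2⟩ := h2 e c R z w w' hR hw hw'
  obtain ⟨p3, -⟩ := h2 e c R z w' w hR hw' hw
  have hx : ∀ v : ℂ, 0 ≤ ‖v‖ / D := fun v => div_nonneg (norm_nonneg _) hD0.le
  have hc : ∀ v : ℂ, |χ (‖v‖ / D)| ≤ 1 := fun v => by
    have := hχ.mem _ (hx v)
    rw [abs_of_nonneg this.1]
    exact this.2
  have hd : |χ (‖w‖ / D) - χ (‖w'‖ / D)| ≤ L / (Real.pi * δ) * ‖w - w'‖ := by
    refine (hL _ _ (hx w) (hx w')).trans ?_
    rw [← sub_div, abs_div, abs_of_pos hD0]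
    have h5 : |‖w‖ - ‖w'‖| / D ≤ ‖w - w'‖ / (Real.pi * δ) :=
      div_le_div₀ (norm_nonneg _) (abs_norm_sub_norm_le w w') hq hD
    calc L * (|‖w‖ - ‖w'‖| / D) ≤ L * (‖w - w'‖ / (Real.pi * δ)) :=
          mul_le_mul_of_nonneg_left h5 hL0
      _ = L / (Real.pi * δ) * ‖w - w'‖ := by ring
  have ht0 : 0 ≤ t := by linarith
  have hk : 0 ≤ L / (Real.pi * δ) := div_nonneg hL0 hq.le
  have hr : ∀ v, resc χ Ω (lamE e) u z v = (T e c z v).re * χ (‖v‖ / D) := fun v => by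
    unfold resc
    rw [u_eq hu]
  rw [hr, hr]
  constructor
  · rw [abs_mul]
    calc |(T e c z w).re| * |χ (‖w‖ / D)| ≤ |(T e c z w).re| * 1 :=
          mul_le_mul_of_nonneg_left (hc w) (abs_nonneg _)
      _ ≤ t := by linarith
      _ ≤ t * (1 + L / (Real.pi * δ)) := le_mul_of_one_le_right ht0 (by linarith)
  · have h6 : (T e c z w).re * χ (‖w‖ / D) - (T e c z w').re * χ (‖w'‖ / D) =
        ((T e c z w).re - (T e c z w').re) * χ (‖w‖ / D) +
          (T e c z w').re * (χ (‖w‖ / D) - χ (‖w'‖ / D)) := by ring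
    rw [h6]
    refine (abs_add_le _ _).trans ?_
    rw [abs_mul, abs_mul]
    have h7 : |(T e c z w).re - (T e c z w').re| * |χ (‖w‖ / D)| ≤ t * ‖w - w'‖ := by
      calc _ ≤ |(T e c z w).re - (T e c z w').re| * 1 :=
            mul_le_mul_of_nonneg_left (hc w) (abs_nonneg _)
        _ ≤ (SS e (c1 e c) R z + SS e (c2 e c) R z) * ‖w - w'‖ := by linarith
        _ ≤ t * ‖w - w'‖ := mul_le_mul_of_nonneg_right (by linarith) (norm_nonneg _)
    have h8 : |(T e c z w').re| * |χ (‖w‖ / D) - χ (‖w'‖ / D)| ≤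
        t * (L / (Real.pi * δ) * ‖w - w'‖) :=
      mul_le_mul (by linarith) hd (abs_nonneg _) ht0
    calc _ ≤ t * ‖w - w'‖ + t * (L / (Real.pi * δ) * ‖w - w'‖) := add_le_add h7 h8
      _ = t * (1 + L / (Real.pi * δ)) * ‖w - w'‖ := by ring

theorem markov {U : Set ℂ} (hb : Bornology.IsBounded U) {X : ℂ → ℝ}
    (hX : Continuous X) (hX0 : ∀ z, 0 ≤ X z) {B q : ℝ} (hq : 0 < q) (hI : ∫ z in U, X z ≤ B) :
    volume {z ∈ U | (B + 1) / q ≤ X z} ≤ ENNReal.ofReal q := by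
  obtain ⟨r, hr⟩ := hb.subset_closedBall 0
  have hint : IntegrableOn X U :=
    (hX.continuousOn.integrableOn_compact (isCompact_closedBall 0 r)).mono_set hr
  have h1 := mul_meas_ge_le_integral_of_nonneg (μ := volume.restrict U)
    (Eventually.of_forall hX0) hint ((B + 1) / q)
  have hB : 0 ≤ B := (integral_nonneg hX0).trans hI
  have hm : MeasurableSet {z | (B + 1) / q ≤ X z} := measurableSet_le measurable_const hX.measurable
  have h2 : (volume.restrict U).real {z | (B + 1) / q ≤ X z} =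
      volume.real {z ∈ U | (B + 1) / q ≤ X z} := by
    rw [measureReal_restrict_apply hm]
    congr 1
    ext z
    exact and_comm
  rw [h2] at h1
  have hfin : volume {z ∈ U | (B + 1) / q ≤ X z} ≠ ⊤ :=
    (hb.subset (fun z hz => hz.1)).measure_lt_top.ne
  rw [← ofReal_measureReal hfin]
  refine ENNReal.ofReal_le_ofReal ?_
  have h3 : (B + 1) / q * volume.real {z ∈ U | (B + 1) / q ≤ X z} ≤ B := h1.trans hI
  rw [div_mul_eq_mul_div, div_le_iff₀ hq] at h3
  have h4 : 0 ≤ volume.real {z ∈ U | (B + 1) / q ≤ X z} := measureReal_nonneg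
  by_contra hcon
  push Not at hcon
  nlinarith [mul_lt_mul_of_pos_left hcon (by linarith : 0 < B + 1)]

theorem TGT (h1 : S_XB) (h2 : S_PB) (h3 : S_CUT) : S_TGT := by
  intro χ hχ Ω U hΩ hb hU hUΩ _ A η hη
  obtain ⟨L, hL0, hL⟩ := h3 χ hχ
  obtain ⟨δ, hδ, hvol⟩ := exists_delta hΩ hb hU hUΩ hη
  have hbU := hb.subset hUΩ
  obtain ⟨K, hK0, hK⟩ := h1 U hU hbU
  let B : ℕ → ℝ := fun R => 3 * (K * (1 + 2 * (R : ℝ)) ^ 2 * √A)
  let q : ℕ → ℝ := fun R => η / 2 / 2 / 2 ^ R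
  have hq : ∀ R, 0 < q R := fun R => by positivity
  refine ⟨fun R => (B R + 1) / q R * (1 + L / (Real.pi * δ)), fun e c u he hu hA => ?_⟩
  let X : ℕ → ℂ → ℝ := fun R z => SS e c R z + SS e (c1 e c) R z + SS e (c2 e c) R z
  have hX : ∀ R : ℕ, Continuous (X R) ∧ ∫ z in U, X R z ≤ B R := by
    intro R
    have hR : (0 : ℝ) ≤ R := Nat.cast_nonneg R
    have hc1 : ∑ ν ∈ V e, ‖c1 e c ν‖ ^ 2 ≤ A := (Finset.sum_le_sum fun ν hν =>
      pow_le_pow_left₀ (norm_nonneg _) (c1_norm he c hν) 2).trans hA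
    have hc2 : ∑ ν ∈ V e, ‖c2 e c ν‖ ^ 2 ≤ A := (Finset.sum_le_sum fun ν hν =>
      pow_le_pow_left₀ (norm_nonneg _) (c2_norm he c hν) 2).trans hA
    have key : ∀ c' : GI → ℂ, ∑ ν ∈ V e, ‖c' ν‖ ^ 2 ≤ A → Continuous (SS e c' R) ∧
        ∫ z in U, SS e c' R z ≤ K * (1 + 2 * (R : ℝ)) ^ 2 * √A := by
      intro c' hc'
      obtain ⟨k1, k2⟩ := hK e c' R he hR
      exact ⟨k1, k2.trans (mul_le_mul_of_nonneg_left (Real.sqrt_le_sqrt hc') (by positivity))⟩
    obtain ⟨a0, b0⟩ := key c hA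
    obtain ⟨a1, b1⟩ := key _ hc1
    obtain ⟨a2, b2⟩ := key _ hc2
    refine ⟨(a0.add a1).add a2, ?_⟩
    obtain ⟨r, hr⟩ := hbU.subset_closedBall 0
    have hint : ∀ G : ℂ → ℝ, Continuous G → IntegrableOn G U := fun G hG =>
      (hG.continuousOn.integrableOn_compact (isCompact_closedBall 0 r)).mono_set hr
    have h5 : ∫ z in U, X R z = (∫ z in U, SS e c R z) + (∫ z in U, SS e (c1 e c) R z) +
        ∫ z in U, SS e (c2 e c) R z := by
      rw [← integral_add (hint _ a0) (hint _ a1)]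
      exact integral_add (hint _ (a0.add a1)) (hint _ a2)
    rw [h5]
    simp only [B]
    linarith
  have hsub : {z ∈ U | ¬ LipBd (fun R => (B R + 1) / q R * (1 + L / (Real.pi * δ)))
      (fun w => resc χ Ω (lamE e) u z w)} ⊆ {z ∈ U | Metric.infDist z (frontier Ω) < δ} ∪
        ⋃ R : ℕ, {z ∈ U | (B R + 1) / q R ≤ X R z} := by
    rintro z ⟨hzU, hz⟩
    by_contra hcon
    rw [Set.mem_union, not_or, Set.mem_iUnion, not_exists] at hcon
    refine hz fun R w w' hw hw' => ?_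
    have h6 : δ ≤ Metric.infDist z (frontier Ω) := not_lt.1 fun h => hcon.1 ⟨hzU, h⟩
    have h7 : X R z ≤ (B R + 1) / q R := (not_le.1 fun h => hcon.2 R ⟨hzU, h⟩).le
    exact lip_bd hχ hL0 hL h2 he hu hδ h6 (Nat.cast_nonneg R) h7 hw hw'
  have hsum : ∑' R : ℕ, ENNReal.ofReal (q R) = ENNReal.ofReal (η / 2) := by
    rw [← ENNReal.ofReal_tsum_of_nonneg (fun R => (hq R).le) (summable_geometric_two' _),
      tsum_geometric_two']
  calc _ ≤ volume ({z ∈ U | Metric.infDist z (frontier Ω) < δ} ∪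
        ⋃ R : ℕ, {z ∈ U | (B R + 1) / q R ≤ X R z}) := measure_mono hsub
    _ ≤ volume {z ∈ U | Metric.infDist z (frontier Ω) < δ} +
        ∑' R : ℕ, volume {z ∈ U | (B R + 1) / q R ≤ X R z} :=
      (measure_union_le _ _).trans (add_le_add le_rfl (measure_iUnion_le _))
    _ ≤ ENNReal.ofReal (η / 2) + ∑' R : ℕ, ENNReal.ofReal (q R) :=
      add_le_add hvol (ENNReal.tsum_le_tsum fun R => markov hbU (hX R).1
        (fun z => add_nonneg (add_nonneg (SS_nonneg _ _ (Nat.cast_nonneg R) _)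
          (SS_nonneg _ _ (Nat.cast_nonneg R) _)) (SS_nonneg _ _ (Nat.cast_nonneg R) _))
        (hq R) (hX R).2)
    _ = ENNReal.ofReal η := by
      rw [hsum, ← ENNReal.ofReal_add (by positivity) (by positivity)]
      congr 1
      ring

end

end Pool.Agent.L0h25.WK
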